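import Pool.Agent.helper12.DD.Spec

set_option autoImplicit false

open Pool.Agent.helper49.Blk

namespace Pool.Agent.DD

theorem IRG_back (hN : NRM_stmt) (A B : Type) [Group A] [Group B] [Finite A] [Finite B]
    (α : A → ℂ) (hα : α ∈ Irr A) (β : B → ℂ) (hβ : β ∈ Irr B) : ot α β ∈ Irr (A × B) := by
  classical
  have := Fintype.ofFinite A
  have := Fintype.ofFinite B
  obtain ⟨V, _, _, _, ρ, hρ, rfl⟩ := hα
  obtain ⟨W, _, _, _, σ, hσ, rfl⟩ := hβ
  have hc : (Representation.tprod (MonoidHom.comp ρ (MonoidHom.fst A B))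
      (MonoidHom.comp σ (MonoidHom.snd A B)) :
        Representation ℂ (A × B) (TensorProduct ℂ V W)).character =
      ot ρ.character σ.character := by
    rw [Representation.char_tensor]
    rfl
  refine ⟨TensorProduct ℂ V W, inferInstance, inferInstance, inferInstance,
    Representation.tprod (MonoidHom.comp ρ (MonoidHom.fst A B))
      (MonoidHom.comp σ (MonoidHom.snd A B)), ?_, hc⟩
  apply hN
  rw [hc]
  have h1 := (orth ρ ρ hρ hρ).2 rfl
  have h2 := (orth σ σ hσ hσ).2 rfl
  calc ∑ g : A × B, ot ρ.character σ.character g * ot ρ.character σ.character g⁻¹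
      = ∑ a : A, ∑ b : B, (ρ.character a * ρ.character a⁻¹) * (σ.character b * σ.character b⁻¹) := by
        rw [Fintype.sum_prod_type]
        refine Finset.sum_congr rfl fun a _ => Finset.sum_congr rfl fun b _ => ?_
        simp only [ot, Prod.inv_mk]
        ring
    _ = (Nat.card (A × B) : ℂ) := by
        rw [← Finset.sum_mul_sum, h1, h2, Nat.card_prod, Nat.cast_mul]

theorem IRG (hC : CPL_stmt) (hN : NRM_stmt) : IRG_stmt := by
  intro A B _ _ _ _ ψ
  classical
  have := Fintype.ofFinite A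
  have := Fintype.ofFinite B
  constructor
  · intro hψ
    by_contra hne
    push Not at hne
    have horth : ∀ α ∈ Irr A, ∀ β ∈ Irr B, ∑ x : A × B, ψ x * ot α β x⁻¹ = 0 := by
      intro α hα β hβ
      have h1 := IRG_back hN A B α hα β hβ
      have h2 := hne α hα β hβ
      obtain ⟨V, _, _, _, ρ, hρ, hρ'⟩ := hψ
      obtain ⟨W, _, _, _, σ, hσ, hσ'⟩ := h1
      have h3 := (orth ρ σ hρ hσ).1 (by rw [hρ', hσ']; exact h2)
      rwa [hρ', hσ'] at h3
    have hcl : ∀ x y : A × B, ψ (y * x * y⁻¹) = ψ x := by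
      obtain ⟨V, _, _, _, ρ, hρ, hρ'⟩ := hψ
      intro x y
      rw [← hρ', Representation.char_conj]
    have hβ0 : ∀ β ∈ Irr B, ∀ a : A, ∑ b : B, ψ (a, b) * β b⁻¹ = 0 := by
      intro β hβ a
      have h1 := hC A (fun a => ∑ b : B, ψ (a, b) * β b⁻¹) (by
        intro g h
        refine Finset.sum_congr rfl fun b _ => ?_
        have h2 := hcl (g, b) (h, 1)
        simp only [Prod.mk_mul_mk, Prod.inv_mk, one_mul, inv_one, mul_one] at h2
        rw [h2]) (by
        intro α hα
        rw [← horth α hα β hβ, Fintype.sum_prod_type]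
        refine Finset.sum_congr rfl fun a _ => ?_
        rw [Finset.sum_mul]
        refine Finset.sum_congr rfl fun b _ => ?_
        simp only [ot, Prod.inv_mk]
        ring)
      exact congrFun h1 a
    have h0 : ∀ a : A, (fun b => ψ (a, b)) = 0 := by
      intro a
      refine hC B (fun b => ψ (a, b)) (fun g h => ?_) (fun β hβ => hβ0 β hβ a)
      have h2 := hcl (a, g) (1, h)
      simpa only [Prod.mk_mul_mk, Prod.inv_mk, one_mul, inv_one, mul_one] using h2
    have hz : ∀ x : A × B, ψ x = 0 := fun x => congrFun (h0 x.1) x.2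
    obtain ⟨V, _, _, _, ρ, hρ, hρ'⟩ := hψ
    have h3 := (orth ρ ρ hρ hρ).2 rfl
    rw [hρ'] at h3
    simp only [hz, zero_mul, Finset.sum_const_zero] at h3
    exact (Nat.cast_ne_zero (R := ℂ)).2 (Nat.card_pos (α := A × B)).ne' h3.symm
  · rintro ⟨α, hα, β, hβ, rfl⟩
    exact IRG_back hN A B α hα β hβ

end Pool.Agent.DD
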