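import Pool.Agent.helper12.DD.Spec

set_option autoImplicit false

open Pool.Agent.helper49.Blk

namespace Pool.Agent.DD

theorem RAD_nil {G : Type} [Group G] : NC ([] : List (Subgroup G)) = ⊤ := by
  simp [NC]

theorem RAD_cons {G : Type} [Group G] (Q : Subgroup G) (C : List (Subgroup G)) :
    NC (Q :: C) = Subgroup.normalizer (Q : Set G) ⊓ NC C := by
  simp [NC, iInf_or, iInf_inf_eq]

theorem RAD_RT {G : Type} [Group G] (p : ℕ) (C : List (Subgroup G)) :
    ∀ H P : Subgroup G, RT p H P C ↔ (P :: C).Pairwise (· < ·) ∧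
      ∀ k, (hk : k < C.length) → IsOp p (H ⊓ NC (C.take (k + 1))) C[k] := by
  induction C with
  | nil => simp [RT]
  | cons Q C ih =>
    intro H P
    have hp : (P :: Q :: C).Pairwise (· < ·) ↔ P < Q ∧ (Q :: C).Pairwise (· < ·) := by
      rw [← List.isChain_iff_pairwise, ← List.isChain_iff_pairwise, List.isChain_cons_cons]
    show (P < Q ∧ IsOp p (H ⊓ Subgroup.normalizer Q) Q ∧ RT p (H ⊓ Subgroup.normalizer Q) Q C) ↔ _
    rw [ih, hp]
    constructor
    · rintro ⟨h1, h2, h3, h4⟩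
      refine ⟨⟨h1, h3⟩, fun k hk => ?_⟩
      rcases k with _ | k
      · simpa [RAD_cons, RAD_nil] using h2
      · have h5 := h4 k (by simpa using hk)
        rw [inf_assoc, ← RAD_cons] at h5
        simpa using h5
    · rintro ⟨⟨h1, h3⟩, h4⟩
      refine ⟨h1, ?_, h3, fun k hk => ?_⟩
      · have h5 := h4 0 (by simp)
        simpa [RAD_cons, RAD_nil] using h5
      · have h5 := h4 (k + 1) (by simpa using hk)
        rw [inf_assoc, ← RAD_cons]
        simpa using h5

theorem RAD : RAD_stmt := by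
  intro G _ p C
  have key : ∀ (P₀ : Subgroup G) (C' : List (Subgroup G)), IsOp p ⊤ P₀ → ∀ k,
      (⊤ : Subgroup G) ⊓ NC (C'.take (k + 1)) = NC ((P₀ :: C').take (k + 2)) := by
    intro P₀ C' h k
    have h1 : Subgroup.normalizer (P₀ : Set G) = ⊤ := top_le_iff.1 h.1.2.2
    rw [List.take_succ_cons, RAD_cons, h1]
  constructor
  · intro h
    rcases C with _ | ⟨P₀, C'⟩
    · exact absurd rfl h.ne
    · have h0 : IsOp p ⊤ P₀ := h.zero P₀ rfl
      refine ⟨P₀, C', rfl, h0, (RAD_RT p C' ⊤ P₀).2 ⟨h.strict, fun k hk => ?_⟩⟩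
      rw [key P₀ C' h0 k]
      have h1 := h.succ k (by simpa using hk)
      simpa using h1
  · rintro ⟨P₀, C', rfl, h0, h1⟩
    obtain ⟨h2, h3⟩ := (RAD_RT p C' ⊤ P₀).1 h1
    refine ⟨by simp, h2, ?_, fun k hk => ?_⟩
    · intro P hP
      have h4 : P₀ = P := by simpa using hP
      rw [← h4]
      exact h0
    · have h4 := h3 k (by simpa using hk)
      rw [key P₀ C' h0 k] at h4
      simpa using h4

end Pool.Agent.DD
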